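import Mathlib
import Pool.Agent.H67.FacetDefs
import Pool.Agent.H67.MinkD

set_option autoImplicit false

open Pool.Agent.H67.Facet

namespace Pool.Agent.Results.MP_ec85c3_co.DimensionEight

/-- Every lattice in Euclidean `n`-space (any `n`) has a basis `b_0, ..., b_{n-1}` such that every
`b_i` with `i < 8` is a facet vector. In particular, for `n ≤ 8` every lattice has a basis of facet
vectors. -/
theorem result (n : ℕ) (L : Submodule ℤ (Euc n)) (hL : IsLattice L) :
    ∃ b : Module.Basis (Fin n) ℤ L, ∀ i : Fin n, (i : ℕ) < 8 → IsFacetVector L (b i) :=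
  Pool.Agent.H67.Mink.main L hL.1 hL.2

end Pool.Agent.Results.MP_ec85c3_co.DimensionEight
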