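import Mathlib
import Pool.Agent.H67.FacetDefs
import Pool.Agent.H67.MinkD
import Pool.Agent.H91.FV.Main

set_option autoImplicit false

open Pool.Agent.H67.Facet

namespace Pool.Agent.Results.MP_ec85c3_co.TwoPrimes

/-- For every dimension `n`, every lattice `L` in Euclidean `n`-space and any two primes `p`, `q`
there are `n` facet vectors of `L` generating a subgroup of `L` whose index is prime to `p * q`
(in particular the index is finite). -/
theorem result (n : ℕ) (L : Submodule ℤ (Euc n)) (hL : IsLattice L) (p q : ℕ) (hp : p.Prime)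
    (hq : q.Prime) :
    ∃ f : Fin n → L, (∀ i, IsFacetVector L (f i)) ∧
      Nat.Coprime (Submodule.span ℤ (Set.range f)).toAddSubgroup.index (p * q) := by
  obtain ⟨b⟩ := Pool.Agent.H67.Mink.exists_basis L hL.1 hL.2
  have : Fact p.Prime := ⟨hp⟩
  have : Fact q.Prime := ⟨hq⟩
  obtain ⟨f, hf, hc⟩ := Pool.Agent.H91.FV.main hL.1 b p q
  refine ⟨f, fun i => ?_, hc⟩
  apply Pool.Agent.H67.Mink.facet_of_indec hL.1 _ (f i).2
  · intro h
    exact (hf i).1 (by simpa using h)
  · intro w hw hw0 hwv
    exact (hf i).2 ⟨w, hw⟩ (by intro h; exact hw0 (congrArg Subtype.val h))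
      (by intro h; exact hwv (congrArg Subtype.val h))

end Pool.Agent.Results.MP_ec85c3_co.TwoPrimes
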